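import Pool.Agent.K3h16.MI.Stm

/-!
Project MI (MP_34b615_gt), bricks TINT1 and TINT2.
-/

open MeasureTheory Set Filter Topology
open scoped ContDiff

namespace Pool.Agent.K3h4.MI

open Pool.Agent.K3h16.MI

lemma continuous_jac {m n : ℕ} {γ : E m → E n} (hγ : ContDiff ℝ ∞ γ) : Continuous (jac γ) := by
  have h1 : ∀ b, Continuous (fun u => pd γ u b) := by
    intro b
    unfold pd
    exact (hγ.continuous_fderiv (by simp)).clm_apply continuous_const
  unfold jac pairing
  apply Real.continuous_sqrt.comp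
  apply Continuous.matrix_det
  apply continuous_matrix
  intro i j
  simp only [Matrix.of_apply]
  exact (h1 i).inner (h1 j)

/-- Brick TINT1 -/
theorem t_TINT1 : S_POU → S_CHI → S_TPARAM → S_FIN → S_TINT1 := by
  intro hPOU hCHI hTP _ m n M e v e' v' T ρ U hM hM' hMU hC f hf
  obtain ⟨K, γ, χ, η, W, δ, hWo, hMW, hδ, hsum, hk⟩ := hPOU m n M e v hM
  have hinj : InjOn T M := by
    intro x hx y hy hxy
    have h := hC.dist x (hMU hx) y (hMU hy)
    have h1 := hC.pos x (hMU hx)
    have h2 := hC.pos y (hMU hy)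
    rw [hxy, sub_self, norm_zero] at h
    have h0 : ρ x * ρ y * ‖x - y‖ ^ 2 = 0 := by
      rw [← h]
      norm_num
    have h3 : ‖x - y‖ ^ 2 = 0 := by
      rcases mul_eq_zero.1 h0 with h4 | h4
      · exact absurd h4 (mul_pos h1 h2).ne'
      · exact h4
    have h5 : ‖x - y‖ = 0 := by
      have := pow_eq_zero_iff (n := 2) (by norm_num) |>.1 h3
      exact this
    exact sub_eq_zero.1 (norm_eq_zero.1 h5)
  obtain ⟨S, hS⟩ : ∃ S : E n → E n, ∀ x ∈ M, S (T x) = x :=
    ⟨Function.invFunOn T M, fun x hx => hinj.leftInvOn_invFunOn hx⟩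
  have hrg : ∀ k u, γ k u ∈ M := by
    intro k u
    obtain ⟨V, hV, hr⟩ := (hk k).1.open_range
    have : γ k u ∈ range (γ k) := mem_range_self u
    rw [hr] at this
    exact this.1
  have hP : ∀ k, IsParam (T '' M) (T ∘ γ k) ∧
      ∀ u, jac (T ∘ γ k) u = ρ (γ k u) ^ m * jac (γ k) u := fun k => by
    obtain ⟨h1, _, h3⟩ := hTP m n M (γ k) T ρ U hM.compact hMU hC (hk k).1
    exact ⟨h1, h3⟩
  obtain ⟨g, hg⟩ : ∃ g : Fin K → E n → ℂ, g = fun k x => (χ k (S x) : ℂ) * f x := ⟨_, rfl⟩
  obtain ⟨F, hF⟩ : ∃ F : Fin K → E n → ℂ,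
    F = fun k x => (ρ x : ℂ) ^ m * ((χ k x : ℂ) * f (T x)) := ⟨_, rfl⟩
  have hcomm : ∀ k u, (jac (T ∘ γ k) u : ℂ) * g k ((T ∘ γ k) u) =
      (jac (γ k) u : ℂ) * F k (γ k u) := by
    intro k u
    rw [hg, hF, (hP k).2 u]
    simp only [Function.comp]
    rw [hS _ (hrg k u)]
    push_cast
    ring
  have hint : ∀ k, Integrable (fun u => (jac (T ∘ γ k) u : ℂ) * g k ((T ∘ γ k) u)) := by
    intro k
    have e1 : (fun u => (jac (T ∘ γ k) u : ℂ) * g k ((T ∘ γ k) u)) =
        fun u => (jac (T ∘ γ k) u : ℂ) * ((χ k (γ k u) : ℂ) * f (T (γ k u))) := by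
      ext u
      rw [hg]
      simp only [Function.comp]
      rw [hS _ (hrg k u)]
    rw [e1]
    apply Continuous.integrable_of_hasCompactSupport
    · have hc1 := continuous_jac (hP k).1.smooth
      have hc2 : Continuous (fun u => f (T (γ k u))) := by
        have := hf.comp_continuous (f := T ∘ γ k) (hP k).1.smooth.continuous
          (fun u => ⟨γ k u, hrg k u, rfl⟩)
        exact this
      have hc3 : Continuous (fun u => χ k (γ k u)) :=
        (hk k).2.2.1.continuous.comp (hk k).1.smooth.continuous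
      exact (Complex.continuous_ofReal.comp hc1).mul
        ((Complex.continuous_ofReal.comp hc3).mul hc2)
    · have h5 : HasCompactSupport (fun u => χ k (γ k u)) := (hk k).2.2.2.2.1
      have h6 : HasCompactSupport (fun u => (χ k (γ k u) : ℂ)) :=
        h5.comp_left Complex.ofReal_zero
      exact (h6.mul_right).mul_left
  have hg0 : ∀ k, ∀ x ∈ T '' M, x ∉ range (T ∘ γ k) → g k x = 0 := by
    rintro k _ ⟨x, hx, rfl⟩ hxr
    have hxr' : x ∉ range (γ k) := by
      rintro ⟨u, rfl⟩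
      exact hxr ⟨u, rfl⟩
    have h7 := ((hk k).2.2.2.2.2.2.1 x hx hxr').1
    rw [hg]
    simp only
    rw [hS x hx, h7]
    simp
  have hF0 : ∀ k, ∀ x ∈ M, x ∉ range (γ k) → F k x = 0 := by
    intro k x hx hxr
    have h7 := ((hk k).2.2.2.2.2.2.1 x hx hxr).1
    rw [hF]
    simp only
    rw [h7]
    simp
  have hC' := fun k => hCHI m n _ e' v' hM' _ (hP k).1 (g k) (hg0 k)
  have hC0 := fun k => hCHI m n _ e v hM _ (hk k).1 (F k) (hF0 k)
  have hgi : ∀ k, Integrable (g k) v' := fun k => ((hC' k).2).2 (hint k)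
  have hFi : ∀ k, Integrable (F k) v := fun k => ((hC0 k).2).2 (by
    refine (hint k).congr (Eventually.of_forall fun u => ?_)
    exact hcomm k u)
  have heq : ∀ k, ∫ x, g k x ∂v' = ∫ x, F k x ∂v := by
    intro k
    rw [(hC' k).1, (hC0 k).1]
    exact integral_congr_ae (Eventually.of_forall fun u => hcomm k u)
  have hmem' : ∀ᵐ x ∂v', x ∈ T '' M := hM'.vol_compl
  have hmem : ∀ᵐ x ∂v, x ∈ M := hM.vol_compl
  have hae' : f =ᵐ[v'] fun x => ∑ k, g k x := by
    filter_upwards [hmem'] with x' hx'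
    obtain ⟨x, hx, rfl⟩ := hx'
    rw [hg]
    simp only
    rw [hS x hx, ← Finset.sum_mul, ← Complex.ofReal_sum, hsum x (hMW hx)]
    simp
  have hae : (fun x => (ρ x : ℂ) ^ m * f (T x)) =ᵐ[v] fun x => ∑ k, F k x := by
    filter_upwards [hmem] with x hx
    rw [hF]
    simp only
    rw [← Finset.mul_sum, ← Finset.sum_mul, ← Complex.ofReal_sum, hsum x (hMW hx)]
    simp
  rw [integral_congr_ae hae', integral_congr_ae hae,
    integral_finset_sum _ (fun k _ => hgi k), integral_finset_sum _ (fun k _ => hFi k)]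
  exact Finset.sum_congr rfl (fun k _ => heq k)

/-- Brick TINT2 -/
theorem t_TINT2 : S_TINT1 → S_FIN → S_TINT2 := by
  intro hT hFIN m n M e v e' v' T ρ U hM hM' hMU hC K hK
  haveI := hFIN m n _ e' v' hM'
  have hM'c := hM'.compact
  have hmem' : ∀ᵐ x ∂v', x ∈ T '' M := hM'.vol_compl
  have hmem : ∀ᵐ x ∂v, x ∈ M := hM.vol_compl
  have hKx : ∀ x ∈ T '' M, ContinuousOn (K x) (T '' M) := by
    intro x hx
    have h := hK.comp (f := fun y : E n => (x, y)) (s := T '' M) (by fun_prop)
      (fun y hy => ⟨hx, hy⟩)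
    exact h
  have hKy : ∀ y ∈ T '' M, ContinuousOn (fun x => K x y) (T '' M) := by
    intro y hy
    have h := hK.comp (f := fun x : E n => (x, y)) (s := T '' M) (by fun_prop)
      (fun x hx => ⟨hx, hy⟩)
    exact h
  obtain ⟨B, hB⟩ := (hM'c.prod hM'c).exists_bound_of_continuousOn hK
  have hres : v'.restrict (T '' M) = v' := Measure.restrict_eq_self_of_ae_mem hmem'
  have hF : ContinuousOn (fun x => ∫ y, K x y ∂v') (T '' M) := by
    apply continuousOn_of_dominated (bound := fun _ => B)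
    · intro x hx
      have := (hKx x hx).aestronglyMeasurable (μ := v') hM'c.measurableSet
      rwa [hres] at this
    · intro x hx
      filter_upwards [hmem'] with y hy
      exact hB (x, y) ⟨hx, hy⟩
    · exact integrable_const B
    · filter_upwards [hmem'] with y hy
      exact hKy y hy
  rw [hT m n M e v e' v' T ρ U hM hM' hMU hC _ hF]
  apply integral_congr_ae
  filter_upwards [hmem] with x hx
  rw [hT m n M e v e' v' T ρ U hM hM' hMU hC _ (hKx (T x) ⟨x, hx, rfl⟩)]
  rw [← integral_const_mul]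
  apply integral_congr_ae
  filter_upwards with y
  ring

end Pool.Agent.K3h4.MI
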